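import Mathlib
import Pool.Agent.Q205.RP.Height2
import Pool.Agent.Q208.WI.Count

/-!
# Wandering integers near the entire `3x+1` interpolation `f₀`

For `w : ℤ → {0, 1}` let `U w n = T (n + w n)`, `T` the `3x+1` function, and let `F w` be the entire
function `f₀ z + ∑ₙ (U w n - T n) sinc (z - n)³`; it has `F w n = U w n` and critical points at all
integers, it depends continuously on `w`, and `F 0 = f₀`. The question whether some integer lies in
a wandering domain is considered for the whole family: the set of `w` for which this happens is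
dense, meagre and of measure zero.
-/

set_option autoImplicit false

open MeasureTheory Filter Topology

namespace Pool.Agent.Results.MP_071ec9_an.DenseMeagreNull

open Pool.Agent.H384R2.Fatou

/-- The entire function of Letherman, Schleicher and Wood interpolating the `3x+1` map. -/
noncomputable def f₀ (z : ℂ) : ℂ :=
  z / 2 + (z + 1 / 2) * ((1 - Complex.cos (Real.pi * z)) / 2) +
    1 / Real.pi * (1 / 2 - Complex.cos (Real.pi * z)) * Complex.sin (Real.pi * z)

/-- The `3x+1` function. -/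
def T (x : ℤ) : ℤ := if x % 2 = 0 then x / 2 else (3 * x + 1) / 2

/-- The perturbed map. -/
def U (w : ℤ → Fin 2) (x : ℤ) : ℤ := T (x + ((w x : ℕ) : ℤ))

/-- `sin (π z) / (π z)`, with value `1` at `0`. -/
noncomputable def sinc (z : ℂ) : ℂ :=
  if z = 0 then 1 else Complex.sin (Real.pi * z) / (Real.pi * z)

/-- The family of entire functions; `F 0 = f₀`. -/
noncomputable def F (w : ℤ → Fin 2) (z : ℂ) : ℂ :=
  f₀ z + ∑' n : ℤ, ((U w n - T n : ℤ) : ℂ) * sinc (z - n) ^ 3

/-- The law of independent fair coins, one for each integer. -/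
noncomputable def coins : Measure (ℤ → Fin 2) :=
  Measure.infinitePi (fun _ : ℤ => (PMF.uniformOfFintype (Fin 2)).toMeasure)

/-- The set of `w` for which some integer lies in a wandering domain of `F w`. -/
def W : Set (ℤ → Fin 2) := {w | ∃ n : ℤ, IsWanderingDomain (F w) (FatouComponent (F w) (n : ℂ))}

theorem F_eq (w : ℤ → Fin 2) : F w = Q208.WI.Fw w := rfl

theorem W_eq : W = {w : ℤ → Fin 2 |
    ∃ n : ℤ, IsWanderingDomain (Q208.WI.Fw w) (FatouComponent (Q208.WI.Fw w) (n : ℂ))} := rfl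

theorem U_eq (w : ℤ → Fin 2) : Q205.RP.Tn Q205.RP.G3 w = Q208.WI.Uw w := rfl

theorem null : coins W = 0 := by
  have h1 := Q205.RP.main_contracting (d := 2) Q205.RP.G3 (m := ![1, 3]) (by
    intro i
    fin_cases i <;> simp) Q205.RP.lin_G3 (by
      rw [Fin.prod_univ_two]
      simp
      norm_num)
  have h2 : ∀ᵐ w ∂coins, w ∉ W := by
    change ∀ᵐ w ∂(Q205.RP.P 2), _
    filter_upwards [h1] with w hw hW
    obtain ⟨K, hK⟩ := hw
    rw [W_eq] at hW
    obtain ⟨n, hn⟩ := hW
    refine Q208.WI.tame_not_wandering w (n := n) ?_ hn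
    intro hwild
    obtain ⟨i, j, hij, _, hxx⟩ := hK n
    rw [U_eq] at hxx
    have := hwild i j hxx
    omega
  rw [ae_iff] at h2
  simpa using h2

/-- **Theorem.** (i) `F 0 = f₀`; for every `w` the function `F w` is entire, `F w n = U w n`,
`(F w)' n = 0` and `n` is in the Fatou set of `F w` for all integers `n`. (ii) `w ↦ F w` is
continuous for locally uniform convergence. (iii) The set `W` of the `w` for which some integer lies
in a wandering domain of `F w` is dense, meagre and of measure zero. (iv) In every neighbourhood of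
`f₀` there is `F w`, `w ∈ W`, where `w` vanishes on a given finite set and at all but
`3 log (x + 1)` of the integers of absolute value at most `x`, for all `x`. -/
theorem result :
    (F 0 = f₀ ∧ ∀ w, Differentiable ℂ (F w) ∧ ∀ n : ℤ, F w n = (U w n : ℂ) ∧
      HasDerivAt (F w) 0 (n : ℂ) ∧ (n : ℂ) ∈ FatouSet (F w)) ∧
    (∀ R ε : ℝ, 0 < ε → ∃ N : ℕ, ∀ w w' : ℤ → Fin 2, (∀ n : ℤ, |n| ≤ N → w n = w' n) →
      ∀ z : ℂ, ‖z‖ ≤ R → ‖F w z - F w' z‖ ≤ ε) ∧
    (Dense W ∧ IsMeagre W ∧ coins W = 0) ∧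
    ∀ R ε : ℝ, 0 < ε → ∃ w ∈ W, (∀ z : ℂ, ‖z‖ ≤ R → ‖F w z - f₀ z‖ ≤ ε) ∧
      (∀ n : ℤ, |(n : ℝ)| ≤ R → w n = 0) ∧
      ∀ x : ℕ, (({n : ℤ | |n| ≤ x ∧ w n ≠ 0}.ncard : ℕ) : ℝ) ≤ 3 * Real.log (x + 1) := by
  refine ⟨⟨Q208.WI.Fw_zero, fun w => ?_⟩, Q208.WI.Fw_close, ⟨?_, ?_, null⟩, ?_⟩
  · obtain ⟨g, hd⟩ := Q208.WI.data w
    exact ⟨hd.diff, fun n => ⟨hd.int n, hd.der n, hd.int_mem_fatou n⟩⟩
  · exact Q208.WI.dense_set
  · exact Q208.WI.meagre_wandering
  · intro R ε hε
    obtain ⟨w, h1, h2, h3, h4⟩ := Q208.WI.near_sparse R ε hε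
    exact ⟨w, h4, h1, h2, h3⟩

end Pool.Agent.Results.MP_071ec9_an.DenseMeagreNull
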