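import Mathlib
import Pool.Agent.Q205.RP.Height2
import Pool.Agent.Q205.RP.Verify2
import Pool.Agent.H384R2.Fatou
import Pool.Agent.Q208.WI.Entire

/-!
# Wandering domains of entire interpolations of almost every perturbed `3x+1` map

`T` is the `3x+1` function; for `w : ℤ → {0, 1}` let `U w n = T (n + w n)` (`w = 0` gives `T`).
An entire function `f` interpolates `U w` if `f n = U w n` and `f' n = 0` for all integers `n`; the
function `f₀` of the problem is such an interpolation for `w = 0`. For almost every `w` and for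
every entire interpolation `f` of `U w` no integer lies in a wandering domain of `f`; there are
finitely many superattracting cycles which attract the Fatou components of all integers, after
`O(log |n|)` steps. If `w` is chosen at random among those that agree with `g` on a finite set `D`
which contains `[-N, N]` and is closed under `U g` (for `g = 0`: the places visited by a finite
verification for `f₀`), then, up to a probability `exp (- exp (c √(log N)))`, the only cycles are
those of `U g` in `D`.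
-/

set_option autoImplicit false

open MeasureTheory Filter Topology

namespace Pool.Agent.Results.MP_071ec9_an.InterpolationsAfterVerification

open Pool.Agent.H384R2.Fatou

/-- The entire function of Letherman, Schleicher and Wood interpolating the `3x+1` map. -/
noncomputable def f₀ (z : ℂ) : ℂ :=
  z / 2 + (z + 1 / 2) * ((1 - Complex.cos (Real.pi * z)) / 2) +
    1 / Real.pi * (1 / 2 - Complex.cos (Real.pi * z)) * Complex.sin (Real.pi * z)

/-- The `3x+1` function. -/
def T (x : ℤ) : ℤ := if x % 2 = 0 then x / 2 else (3 * x + 1) / 2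

/-- The perturbed map. -/
def U (w : ℤ → Fin 2) (x : ℤ) : ℤ := T (x + ((w x : ℕ) : ℤ))

/-- The law of independent fair coins, one for each integer. -/
noncomputable def coins : Measure (ℤ → Fin 2) :=
  Measure.infinitePi (fun _ : ℤ => (PMF.uniformOfFintype (Fin 2)).toMeasure)

/-- `f` is an entire function with `f n = U w n` and `f' n = 0` for all integers `n`. -/
def Interp (w : ℤ → Fin 2) (f : ℂ → ℂ) : Prop :=
  Differentiable ℂ f ∧ ∀ n : ℤ, f n = (U w n : ℂ) ∧ HasDerivAt f 0 (n : ℂ)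

/-- `sin (π z) / (π z)`, with value `1` at `0`. -/
noncomputable def sinc (z : ℂ) : ℂ :=
  if z = 0 then 1 else Complex.sin (Real.pi * z) / (Real.pi * z)

/-- An explicit interpolation of `U w`, equal to `f₀` for `w = 0`. -/
noncomputable def F (w : ℤ → Fin 2) (z : ℂ) : ℂ :=
  f₀ z + ∑' n : ℤ, ((U w n - T n : ℤ) : ℂ) * sinc (z - n) ^ 3

/-- The integer `n` lies in the Fatou set of `f`, its Fatou component is not a wandering domain, and
after `k` steps the whole component is attracted to the superattracting cycle of an integer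
`a ∈ C` of period (dividing) `p`, where `k, p ≤ L`. -/
def Settled (f : ℂ → ℂ) (C : Finset ℤ) (L : ℝ) (n : ℤ) : Prop :=
  (n : ℂ) ∈ FatouSet f ∧ ¬ IsWanderingDomain f (FatouComponent f n) ∧
  ∃ a ∈ C, ∃ k p : ℕ, (k : ℝ) ≤ L ∧ 0 < p ∧ (p : ℝ) ≤ L ∧ f^[p] (a : ℂ) = a ∧
    HasDerivAt (f^[p]) 0 (a : ℂ) ∧
    ∀ z ∈ FatouComponent f n, Tendsto (fun m : ℕ => f^[k + p * m] z) atTop (𝓝 (a : ℂ))

/-! ### The explicit interpolation -/

theorem f₀_int (n : ℤ) : f₀ (n : ℂ) = (T n : ℂ) := by
  have hs : Complex.sin (Real.pi * (n : ℂ)) = 0 := by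
    rw [mul_comm]; exact Complex.sin_int_mul_pi n
  unfold f₀ T
  rw [hs]
  rcases Int.even_or_odd n with h | h
  · obtain ⟨m, rfl⟩ := h
    have hc : Complex.cos (Real.pi * ((m + m : ℤ) : ℂ)) = 1 := by
      have := Complex.cos_int_mul_two_pi m
      rw [← this]; congr 1; push_cast; ring
    rw [hc]
    have h1 : (m + m) % 2 = 0 := by omega
    have h2 : (m + m) / 2 = m := by omega
    simp only [h1, h2, if_true]
    push_cast; ring
  · obtain ⟨m, rfl⟩ := h
    have hc : Complex.cos (Real.pi * ((2 * m + 1 : ℤ) : ℂ)) = -1 := by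
      have := Complex.cos_int_mul_two_pi m
      have h3 : (Real.pi : ℂ) * ((2 * m + 1 : ℤ) : ℂ) = m * (2 * Real.pi) + Real.pi := by
        push_cast; ring
      rw [h3, Complex.cos_add_pi, this]
    rw [hc]
    have h1 : ¬ (2 * m + 1) % 2 = 0 := by omega
    have h2 : (3 * (2 * m + 1) + 1) / 2 = 3 * m + 2 := by omega
    simp only [h1, h2, if_false]
    push_cast; ring

theorem f₀_hasDerivAt (z : ℂ) : HasDerivAt f₀
    (1 / 2 + ((1 - Complex.cos (Real.pi * z)) / 2 +
      (z + 1 / 2) * ((Complex.sin (Real.pi * z) * Real.pi) / 2)) +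
      (1 / Real.pi * (Complex.sin (Real.pi * z) * Real.pi) * Complex.sin (Real.pi * z) +
        1 / Real.pi * (1 / 2 - Complex.cos (Real.pi * z)) *
          (Complex.cos (Real.pi * z) * Real.pi))) z := by
  have hpi : HasDerivAt (fun z : ℂ => (Real.pi : ℂ) * z) Real.pi z := by
    simpa using (hasDerivAt_id z).const_mul (Real.pi : ℂ)
  have hc : HasDerivAt (fun z : ℂ => Complex.cos (Real.pi * z))
      (-Complex.sin (Real.pi * z) * Real.pi) z :=
    (Complex.hasDerivAt_cos _).comp z hpi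
  have hs : HasDerivAt (fun z : ℂ => Complex.sin (Real.pi * z))
      (Complex.cos (Real.pi * z) * Real.pi) z :=
    (Complex.hasDerivAt_sin _).comp z hpi
  have h1 : HasDerivAt (fun z : ℂ => z / 2) (1 / 2) z := (hasDerivAt_id z).div_const 2
  have h2 : HasDerivAt (fun z : ℂ => z + 1 / 2) 1 z := (hasDerivAt_id z).add_const _
  have h3 := (hc.const_sub 1).div_const 2
  have h4 := h2.mul h3
  have h5 := ((hc.const_sub (1 / 2)).const_mul (1 / (Real.pi : ℂ))).mul hs
  have h6 := (h1.add h4).add h5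
  have h7 := h6.congr_deriv (g' := 1 / 2 + ((1 - Complex.cos (Real.pi * z)) / 2 +
      (z + 1 / 2) * ((Complex.sin (Real.pi * z) * Real.pi) / 2)) +
      (1 / Real.pi * (Complex.sin (Real.pi * z) * Real.pi) * Complex.sin (Real.pi * z) +
        1 / Real.pi * (1 / 2 - Complex.cos (Real.pi * z)) *
          (Complex.cos (Real.pi * z) * Real.pi))) (by ring)
  exact h7

theorem f₀_deriv_int (n : ℤ) : HasDerivAt f₀ 0 (n : ℂ) := by
  have h := f₀_hasDerivAt (n : ℂ)
  have hs : Complex.sin (Real.pi * (n : ℂ)) = 0 := by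
    rw [mul_comm]; exact Complex.sin_int_mul_pi n
  have hc : Complex.cos (Real.pi * (n : ℂ)) ^ 2 = 1 := by
    have := Complex.sin_sq_add_cos_sq ((Real.pi : ℂ) * (n : ℂ))
    rw [hs] at this
    simpa using this
  have hpi : (Real.pi : ℂ) ≠ 0 := by exact_mod_cast Real.pi_ne_zero
  convert h using 1
  rw [hs]
  field_simp
  linear_combination 4 * hc

theorem f₀_differentiable : Differentiable ℂ f₀ := fun z => (f₀_hasDerivAt z).differentiableAt

theorem diff_bound (w : ℤ → Fin 2) (n : ℤ) :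
    ‖((U w n - T n : ℤ) : ℂ)‖ ≤ 4 * (1 + |(n : ℝ)|) := by
  rw [Complex.norm_intCast]
  have h1 : |U w n - T n| ≤ 4 * (1 + |n|) := by
    have h2 : (0 : ℤ) ≤ ((w n : ℕ) : ℤ) := by positivity
    have h3 : ((w n : ℕ) : ℤ) < 2 := by exact_mod_cast (w n).2
    unfold U T
    rw [abs_le]
    rcases abs_cases n with h4 | h4 <;> split_ifs <;> constructor <;> omega
  exact_mod_cast h1

theorem F_eq (w : ℤ → Fin 2) (z : ℂ) :
    F w z = f₀ z + Q208.WI.G (fun n : ℤ => ((U w n - T n : ℤ) : ℂ)) z := rfl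

theorem F_interp (w : ℤ → Fin 2) : Interp w (F w) := by
  obtain ⟨h1, h2, h3⟩ := Q208.WI.G_spec (e := fun n : ℤ => ((U w n - T n : ℤ) : ℂ)) (A := 4)
    (by norm_num) (diff_bound w)
  have hF : F w = fun z => f₀ z + Q208.WI.G (fun n : ℤ => ((U w n - T n : ℤ) : ℂ)) z :=
    funext fun z => F_eq w z
  refine ⟨?_, fun n => ⟨?_, ?_⟩⟩
  · rw [hF]
    exact f₀_differentiable.add h1
  · rw [F_eq, h2, f₀_int]
    push_cast
    ring
  · rw [hF]
    have := (f₀_deriv_int n).add (h3 n)
    rw [add_zero] at this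
    exact this

theorem F_zero : F 0 = f₀ := by
  funext z
  have h1 : ∀ n : ℤ, U 0 n - T n = 0 := by
    intro n
    unfold U
    simp
  unfold F
  simp [h1]

/-! ### Iteration -/

theorem iter_int {w : ℤ → Fin 2} {f : ℂ → ℂ} (hf : Interp w f) (n : ℤ) (k : ℕ) :
    f^[k] (n : ℂ) = (((U w)^[k] n : ℤ) : ℂ) := by
  induction k with
  | zero => rfl
  | succ k ih =>
    rw [Function.iterate_succ_apply', Function.iterate_succ_apply', ih]
    exact (hf.2 _).1

theorem iter_deriv {w : ℤ → Fin 2} {f : ℂ → ℂ} (hf : Interp w f) (n : ℤ) (p : ℕ) (hp : 0 < p) :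
    HasDerivAt (f^[p]) 0 (n : ℂ) := by
  obtain ⟨q, rfl⟩ : ∃ q, p = q + 1 := ⟨p - 1, by omega⟩
  have h1 : HasDerivAt (f^[q]) (deriv (f^[q]) (f n)) (f n) :=
    ((hf.1.iterate q) _).hasDerivAt
  have h2 := h1.comp (n : ℂ) (hf.2 n).2
  simpa using h2

/-- An eventually periodic integer is settled. -/
theorem settled_of {w : ℤ → Fin 2} {f : ℂ → ℂ} (hf : Interp w f) {C : Finset ℤ} {L : ℝ} {n : ℤ}
    {i j : ℕ} (hij : i < j) (hj : (j : ℝ) ≤ L) (h : (U w)^[i] n = (U w)^[j] n)
    (hC : (U w)^[i] n ∈ C) : Settled f C L n := by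
  set a : ℤ := (U w)^[i] n with ha
  set p : ℕ := j - i with hp
  have hp0 : 0 < p := by omega
  have hUa : (U w)^[p] a = a := by
    rw [ha, ← Function.iterate_add_apply, show p + i = j by omega]
    exact h.symm
  have hpa : f^[p] (a : ℂ) = a := by rw [iter_int hf, hUa]
  have hd := iter_deriv hf a p hp0
  have hn : f^[i] (n : ℂ) = (a : ℂ) := by rw [iter_int hf]
  have hfat := mem_fatou_of_hits hf.1.continuous hp0 hpa hd hn
  refine ⟨hfat, not_wandering_of_hits hfat (k := i) hp0 ?_, a, hC, i, p, ?_, hp0, ?_, hpa, hd,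
    basin_of_hits hf.1 hp0 hpa hd hn⟩
  · rw [add_comm, Function.iterate_add_apply, hn, hpa]
  · have : (i : ℝ) ≤ j := by exact_mod_cast hij.le
    linarith
  · have : (p : ℝ) ≤ j := by exact_mod_cast Nat.sub_le j i
    linarith

theorem U_eq (w : ℤ → Fin 2) : Q205.RP.Tn Q205.RP.G3 w = U w := rfl

theorem slopes (i : Fin 2) : ∃ e ≤ 1, (![1, 3] : Fin 2 → ℤ) i = ((3 : ℕ) : ℤ) ^ e := by
  fin_cases i
  · exact ⟨0, by norm_num, by simp⟩
  · exact ⟨1, by norm_num, by simp⟩

theorem prod_lt : ∏ i, |(((![1, 3] : Fin 2 → ℤ) i : ℤ) : ℝ)| < ((2 : ℕ) : ℝ) ^ 2 := by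
  rw [Fin.prod_univ_two]
  simp
  norm_num

theorem almost_every : ∀ᵐ w ∂coins, ∃ (C : Finset ℤ) (K : ℝ), ∀ f : ℂ → ℂ, Interp w f →
    ∀ n : ℤ, Settled f C (K * Real.log (2 + |(n : ℝ)|)) n := by
  have h1 := Q205.RP.main_contracting (d := 2) Q205.RP.G3 (m := ![1, 3]) (by
    intro i
    fin_cases i <;> simp) Q205.RP.lin_G3 prod_lt
  have h2 := Q205.RP.main_cycles (d := 2) Q205.RP.G3 (m := ![1, 3]) (q := 3) (E := 1)
    (by norm_num) (by norm_num) (by norm_num) slopes (Q205.RP.RR_ge _ _) Q205.RP.lin_G3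
    prod_lt.ne
  change ∀ᵐ w ∂(Q205.RP.P 2), _
  filter_upwards [h1, h2] with w hw hper
  obtain ⟨K, hK⟩ := hw
  refine ⟨hper.toFinset, K, fun f hf n => ?_⟩
  obtain ⟨i, j, hij, hj, hxx⟩ := hK n
  refine settled_of hf hij hj hxx ?_
  rw [Set.Finite.mem_toFinset]
  exact Q205.RP.mem_periodicPts_of_eq _ hij hxx

theorem verified : ∃ c : ℝ, 0 < c ∧ ∃ N₀ : ℕ, ∀ N : ℕ, N₀ ≤ N →
    ∀ (D : Finset ℤ) (g : ℤ → Fin 2),
    (∀ n : ℤ, |n| ≤ N → n ∈ D) → (∀ n ∈ D, U g n ∈ D) →
    coins {w | (∀ n ∈ D, w n = g n) ∧ ¬ ∃ K : ℝ, ∀ f : ℂ → ℂ, Interp w f →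
        ∀ n : ℤ, Settled f D (K * Real.log (2 + |(n : ℝ)|)) n} ≤
      ENNReal.ofReal (Real.exp (-Real.exp (c * Real.sqrt (Real.log N)))) *
        coins {w | ∀ n ∈ D, w n = g n} := by
  obtain ⟨c, hc, N₀, h⟩ := Q205.RP.main_verify (d := 2) (q := 3) (E := 1) Q205.RP.G3
    (by norm_num) (by norm_num) (by norm_num) slopes (Q205.RP.RR_ge _ _) Q205.RP.lin_G3 prod_lt
  refine ⟨c, hc, N₀, fun N hN D g hD1 hD2 => ?_⟩
  have h1 := h N hN D g Set.univ (fun _ _ _ => Set.mem_univ _) (fun z _ hz => hD1 z hz)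
  have hcoins : coins = Q205.RP.P 2 := rfl
  rw [hcoins]
  refine (measure_mono ?_).trans h1
  rintro w ⟨hw, hbad⟩
  refine ⟨?_, hw⟩
  rintro ⟨K, hK⟩
  apply hbad
  -- pigeonhole inside `D`
  have hpig : ∀ y ∈ D, ∃ i j : ℕ, i < j ∧ j ≤ D.card ∧ (U g)^[i] y = (U g)^[j] y ∧
      (U g)^[i] y ∈ D := by
    intro y hy
    have hmem : ∀ k : ℕ, (U g)^[k] y ∈ D := by
      intro k
      induction k with
      | zero => exact hy
      | succ k ih =>
        rw [Function.iterate_succ_apply']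
        exact hD2 _ ih
    obtain ⟨i, hi, j, hj, hne, heq⟩ := Finset.exists_ne_map_eq_of_card_lt_of_maps_to
      (s := Finset.range (D.card + 1)) (t := D) (by simp)
      (f := fun k => (U g)^[k] y) (fun k _ => hmem k)
    rw [Finset.mem_range] at hi hj
    rcases lt_or_gt_of_ne hne with hlt | hlt
    · exact ⟨i, j, hlt, by omega, heq, hmem i⟩
    · exact ⟨j, i, hlt, by omega, heq.symm, hmem j⟩
  have hl2 : 0 < Real.log 2 := Real.log_pos (by norm_num)
  refine ⟨K + D.card / Real.log 2, fun f hf n => ?_⟩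
  obtain ⟨k, hk1, hk2⟩ := hK n (Set.mem_univ n)
  rw [U_eq] at hk2
  set y := (U w)^[k] n with hy
  obtain ⟨i, j, hij, hj, hxx, hmem⟩ := hpig y hk2
  have hit := Q205.RP.iter_eq Q205.RP.G3 w g D hw (fun s hs => hD2 s hs) hk2
  rw [U_eq, U_eq] at hit
  have e1 : (U w)^[i + k] n = (U g)^[i] y := by
    rw [Function.iterate_add_apply, ← hy]
    exact (hit i).1
  have e2 : (U w)^[j + k] n = (U g)^[j] y := by
    rw [Function.iterate_add_apply, ← hy]
    exact (hit j).1
  refine settled_of hf (i := i + k) (j := j + k) (by omega) ?_ (by rw [e1, e2, hxx])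
    (by rw [e1]; exact hmem)
  have h3 : Real.log 2 ≤ Real.log (2 + |(n : ℝ)|) :=
    Real.log_le_log (by norm_num) (by linarith [abs_nonneg (n : ℝ)])
  have h4 : (D.card : ℝ) ≤ D.card / Real.log 2 * Real.log (2 + |(n : ℝ)|) := by
    rw [div_mul_eq_mul_div, le_div_iff₀ hl2]
    exact mul_le_mul_of_nonneg_left h3 (Nat.cast_nonneg _)
  have h5 : (j : ℝ) ≤ D.card := by exact_mod_cast hj
  push_cast
  rw [add_mul]
  linarith

/-- **Theorem.** (0) `F w` is an entire interpolation of `U w`, and `F 0 = f₀`. (1) For almost every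
`w` there are a finite set `C` of integers and `K` such that for every entire interpolation `f` of
`U w` every integer `n` is in the Fatou set of `f`, its component is not wandering and is attracted
to the superattracting cycle of a member of `C` after at most `K log (2 + |n|)` steps. (2) The same
holds with `C = D`, up to a conditional probability `exp (- exp (c √(log N)))`, for the `w` that
agree with `g` on a finite set `D` containing `[-N, N]` and closed under `U g`. -/
theorem result : (∀ w, Interp w (F w)) ∧ F 0 = f₀ ∧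
    (∀ᵐ w ∂coins, ∃ (C : Finset ℤ) (K : ℝ), ∀ f : ℂ → ℂ, Interp w f →
      ∀ n : ℤ, Settled f C (K * Real.log (2 + |(n : ℝ)|)) n) ∧
    (∃ c : ℝ, 0 < c ∧ ∃ N₀ : ℕ, ∀ N : ℕ, N₀ ≤ N → ∀ (D : Finset ℤ) (g : ℤ → Fin 2),
      (∀ n : ℤ, |n| ≤ N → n ∈ D) → (∀ n ∈ D, U g n ∈ D) →
      coins {w | (∀ n ∈ D, w n = g n) ∧ ¬ ∃ K : ℝ, ∀ f : ℂ → ℂ, Interp w f →
          ∀ n : ℤ, Settled f D (K * Real.log (2 + |(n : ℝ)|)) n} ≤
        ENNReal.ofReal (Real.exp (-Real.exp (c * Real.sqrt (Real.log N)))) *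
          coins {w | ∀ n ∈ D, w n = g n}) :=
  ⟨F_interp, F_zero, almost_every, verified⟩

end Pool.Agent.Results.MP_071ec9_an.InterpolationsAfterVerification
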