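import Mathlib
import Pool.Agent.Q74.SZ.Law
import Pool.Agent.Q74.SZ.Limits
import Pool.Agent.H723R2.LSWDens

set_option autoImplicit false

/-! The size of the Fatou components of the entire `3x+1` interpolation `f₀` at the integers, and its
distribution over the integers in wandering domains (or in any other invariant set). -/

open Filter Topology Metric Set

namespace Pool.Agent.Results.MP_071ec9_an.SizeLaw

open Pool.Agent.H384R2.Fatou

/-- The entire function of Letherman, Schleicher and Wood; `f₀ n = T n` for every integer `n`. -/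
noncomputable def f₀ (z : ℂ) : ℂ :=
  z / 2 + (z + 1 / 2) * ((1 - Complex.cos (Real.pi * z)) / 2) +
    1 / Real.pi * (1 / 2 - Complex.cos (Real.pi * z)) * Complex.sin (Real.pi * z)

/-- The `3x+1` function. -/
def T (n : ℤ) : ℤ := if n % 2 = 0 then n / 2 else (3 * n + 1) / 2

/-- The Julia set of `f₀`. -/
def JuliaSet : Set ℂ := (FatouSet f₀)ᶜ

/-- The normalised size at the integer `n`: `|n|` times the distance of `n` to the Julia set, i.e.
times the radius of the largest disc about `n` in the Fatou component of `n`. -/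
noncomputable def size (n : ℤ) : ℝ := |(n : ℝ)| * infDist (n : ℂ) JuliaSet

/-- The number in `[0, 1]` with the binary digits given by the parities of `n, T n, T² n, …`. -/
noncomputable def θ (n : ℤ) : ℝ := ∑' k : ℕ, ((T^[k] n % 2 : ℤ) : ℝ) / 2 ^ (k + 1)

/-- The integers whose Fatou component is a wandering domain of `f₀`. -/
def WanderingIntegers : Set ℤ := {n | IsWanderingDomain f₀ (FatouComponent f₀ n)}

/-- `S` contains the integer `n` of sign `s` iff it contains `f₀ n`. -/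
def Invariant (s : ℤ) (S : Set ℤ) : Prop := ∀ n m : ℤ, 0 < s * n → f₀ (n : ℂ) = m → (n ∈ S ↔ m ∈ S)

/-- The number of the integers `n` in `S` with `0 < s n ≤ N`. -/
noncomputable def count (s : ℤ) (S : Set ℤ) (N : ℕ) : ℝ :=
  ({n : ℤ | 0 < s * n ∧ s * n ≤ N ∧ n ∈ S}.ncard : ℝ)

/-- The integers of normalised size at most `8/π² · 3 ^ (-x)`. -/
def Small (x : ℝ) : Set ℤ := {n | size n ≤ 8 / Real.pi ^ 2 * 3 ^ (-x)}

/-- Let `s = 1` or `s = -1`.
(1) `size n * 3 ^ θ n → 8/π²` as `|n| → ∞`, over all integers `n`.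
(2) For every `ε > 0` and all large `N`, for all invariant sets `S` and all `x ∈ [0, 1]`, the number of
`n ∈ S` of size at most `8/π² · 3 ^ (-x)` with `0 < s n ≤ N` differs from `1 - x` times the number of all
`n ∈ S` with `0 < s n ≤ N` by at most `ε N`.
(3) Hence, when `S` contains an integer of sign `s`, the proportion of these `n` in `S` tends to `1 - x`.
(4) In particular this holds for the set of the integers in wandering domains, if one of them has the
sign `s`; and if the component of `n` is a wandering domain then the sizes of the iterates `T^k n` have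
infinitely many limit points, all in `[8/(3π²), 8/π²]`. -/
theorem result :
    Tendsto (fun n : ℤ => size n * 3 ^ θ n) cofinite (𝓝 (8 / Real.pi ^ 2)) ∧
    (∀ ε : ℝ, 0 < ε → ∃ N₀ : ℕ, ∀ N ≥ N₀, ∀ s : ℤ, (s = 1 ∨ s = -1) → ∀ S : Set ℤ, Invariant s S →
      ∀ x : ℝ, 0 ≤ x → x ≤ 1 →
        |count s (S ∩ Small x) N - (1 - x) * count s S N| ≤ ε * N) ∧
    (∀ s : ℤ, (s = 1 ∨ s = -1) → ∀ S : Set ℤ, Invariant s S → (∃ n ∈ S, 0 < s * n) →
      ∀ x : ℝ, 0 ≤ x → x ≤ 1 →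
        Tendsto (fun N : ℕ => count s (S ∩ Small x) N / count s S N) atTop (𝓝 (1 - x))) ∧
    (∀ s : ℤ, (s = 1 ∨ s = -1) → (∃ n ∈ WanderingIntegers, 0 < s * n) → ∀ x : ℝ, 0 ≤ x → x ≤ 1 →
      Tendsto (fun N : ℕ => count s (WanderingIntegers ∩ Small x) N / count s WanderingIntegers N)
        atTop (𝓝 (1 - x))) ∧
    ∀ n ∈ WanderingIntegers,
      {y : ℝ | MapClusterPt y atTop fun k : ℕ => size (T^[k] n)}.Infinite ∧
      ∀ y : ℝ, MapClusterPt y atTop (fun k : ℕ => size (T^[k] n)) →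
        8 / (3 * Real.pi ^ 2) ≤ y ∧ y ≤ 8 / Real.pi ^ 2 := by
  have hf : ∀ n m : ℤ, f₀ (n : ℂ) = m ↔ Pool.Agent.H723R2.LSW.T n = m := by
    intro n m
    have h1 : f₀ (n : ℂ) = (Pool.Agent.H723R2.LSW.T n : ℂ) := Pool.Agent.H723R2.LSW.f₀_int n
    rw [h1]
    exact_mod_cast Iff.rfl
  have hinv : ∀ (s : ℤ) (S : Set ℤ), Invariant s S →
      ∀ n : ℤ, 0 < s * n → (n ∈ S ↔ Pool.Agent.H723R2.LSW.T n ∈ S) :=
    fun s S h n hn => h n _ hn ((hf n _).2 rfl)
  have hcnt : ∀ (s : ℤ), (s = 1 ∨ s = -1) → ∀ (S : Set ℤ) (N : ℕ),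
      count s S N = Pool.Agent.Q74.SZ.cnt N (fun n => s * (n : ℤ) ∈ S) := by
    intro s hs S N
    unfold count Pool.Agent.Q74.SZ.cnt
    congr 1
    have h1 : {n : ℤ | 0 < s * n ∧ s * n ≤ N ∧ n ∈ S} =
        (fun n : ℕ => s * (n : ℤ)) '' {n ∈ Set.Icc 1 N | s * ((n : ℕ) : ℤ) ∈ S} := by
      ext m
      simp only [Set.mem_image, Set.mem_ofPred_eq, Set.mem_Icc]
      constructor
      · rintro ⟨h1, h2, h3⟩
        have h4 : ((s * m).toNat : ℤ) = s * m := Int.toNat_of_nonneg h1.le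
        have h5 : s * (s * m) = m := by rcases hs with rfl | rfl <;> ring
        refine ⟨(s * m).toNat, ⟨⟨by omega, by omega⟩, ?_⟩, ?_⟩
        · rw [h4, h5]; exact h3
        · rw [h4, h5]
      · rintro ⟨k, ⟨⟨h1, h2⟩, h3⟩, rfl⟩
        have h5 : s * (s * (k : ℤ)) = k := by rcases hs with rfl | rfl <;> ring
        rw [h5]
        exact ⟨by exact_mod_cast h1, by exact_mod_cast h2, h3⟩
    rw [h1, Set.ncard_image_of_injective]
    intro a b hab
    simp only at hab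
    rcases hs with rfl | rfl <;> omega
  have hcnt2 : ∀ (s : ℤ), (s = 1 ∨ s = -1) → ∀ (S : Set ℤ) (x : ℝ) (N : ℕ),
      count s (S ∩ Small x) N = Pool.Agent.Q74.SZ.cnt N (fun n => s * (n : ℤ) ∈ S ∧
        |((s * (n : ℤ) : ℤ) : ℝ)| * Pool.Agent.Q74.SZ.D (s * n) ≤ 8 / Real.pi ^ 2 * (3 : ℝ) ^ (-x)) :=
    fun s hs S x N => hcnt s hs (S ∩ Small x) N
  have h3 : ∀ s : ℤ, (s = 1 ∨ s = -1) → ∀ S : Set ℤ, Invariant s S → (∃ n ∈ S, 0 < s * n) →
      ∀ x : ℝ, 0 ≤ x → x ≤ 1 →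
        Tendsto (fun N : ℕ => count s (S ∩ Small x) N / count s S N) atTop (𝓝 (1 - x)) := by
    rintro s hs S hS ⟨n, hn1, hn2⟩ x hx0 hx1
    refine (Pool.Agent.Q74.SZ.law3 hs (hinv s S hS) ⟨n, hn2, hn1⟩ hx0 hx1).congr fun N => ?_
    rw [hcnt s hs S N, hcnt2 s hs S x N]
  have hW : ∀ n : ℤ, n ∈ WanderingIntegers ↔ Pool.Agent.H723R2.LSW.Wild n :=
    fun n => Pool.Agent.H723R2.LSW.wandering_iff n
  have hwild : ∀ n : ℤ, Pool.Agent.H723R2.LSW.Wild n ↔
      Pool.Agent.H723R2.LSW.Wild (Pool.Agent.H723R2.LSW.T n) := fun n =>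
    ⟨fun h => Pool.Agent.Q74.SZ.wild_T h, Pool.Agent.H723R2.LSW.wild_mer
      (Pool.Agent.H723R2.LSW.Mer.symm ⟨1, 0, rfl⟩)⟩
  refine ⟨Pool.Agent.Q74.SZ.size_tendsto, fun ε hε => ?_, h3, fun s hs hne x hx0 hx1 => ?_, fun n hn => ?_⟩
  · obtain ⟨N₀, h⟩ := Pool.Agent.Q74.SZ.law2 hε
    refine ⟨N₀, fun N hN s hs S hS x hx0 hx1 => ?_⟩
    rw [hcnt s hs S N, hcnt2 s hs S x N]
    exact h N hN s hs S (hinv s S hS) x hx0 hx1
  · refine h3 s hs _ (fun n m _ hnm => ?_) hne x hx0 hx1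
    rw [hW, hW, hwild n, (hf n m).1 hnm]
  · have hn' := (hW n).1 hn
    refine ⟨Pool.Agent.Q74.SZ.size_clusters hn', fun y hy => ?_⟩
    have hlim : Tendsto (fun k : ℕ => size (T^[k] n) * (3 : ℝ) ^ θ (T^[k] n)) atTop
        (𝓝 (8 / Real.pi ^ 2)) := by
      have h2 : Tendsto (fun k : ℕ => T^[k] n) atTop cofinite := by
        rw [← Nat.cofinite_eq_atTop]
        exact Function.Injective.tendsto_cofinite fun i j hij => hn' i j hij
      exact Pool.Agent.Q74.SZ.size_tendsto.comp h2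
    rw [mapClusterPt_iff_ultrafilter] at hy
    obtain ⟨U, hU, hUt⟩ := hy
    have h4 := hlim.mono_left hU
    have hb : ∀ k : ℕ, 0 ≤ size (T^[k] n) ∧ 1 ≤ (3 : ℝ) ^ θ (T^[k] n) ∧ (3 : ℝ) ^ θ (T^[k] n) ≤ 3 := by
      intro k
      obtain ⟨h5, h6⟩ := Pool.Agent.Q74.SZ.theta_bd (T^[k] n)
      refine ⟨mul_nonneg (abs_nonneg _) infDist_nonneg, Real.one_le_rpow (by norm_num) h5, ?_⟩
      calc (3 : ℝ) ^ θ (T^[k] n) ≤ 3 ^ (1 : ℝ) := Real.rpow_le_rpow_of_exponent_le (by norm_num) h6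
        _ = 3 := Real.rpow_one 3
    constructor
    · have h7 : 8 / Real.pi ^ 2 ≤ y * 3 := by
        refine le_of_tendsto_of_tendsto' h4 (hUt.mul_const 3) fun k => ?_
        obtain ⟨h8, h9, h10⟩ := hb k
        exact mul_le_mul_of_nonneg_left h10 h8
      have e : 8 / (3 * Real.pi ^ 2) = 8 / Real.pi ^ 2 / 3 := by field_simp
      rw [e]
      linarith
    · refine le_of_tendsto_of_tendsto' hUt h4 fun k => ?_
      obtain ⟨h8, h9, h10⟩ := hb k
      exact le_mul_of_one_le_right h8 h9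

end Pool.Agent.Results.MP_071ec9_an.SizeLaw
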