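import Pool.Agent.Q138.PS.UH
import Pool.Agent.Q138.PS.UD
import Pool.Agent.Results.MP_071ec9_an.NaturalDensity
import Pool.Agent.Results.MP_071ec9_an.SizeLaw

/-!
# Wandering domains and sizes of Fatou components at the numbers `± ⌊α P(n)⌋`

Let `q ≥ 2`. Outside a set of real numbers of Hausdorff dimension at most `q / (q + 1 / (q 2 ^ (q - 1)))` (that is
`8 / 9` for `q = 2`) every `α > 0` has the following property: for the integral polynomials `P` of degree `q` the proportion of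
the `± ⌊α P(n)⌋` that lie in wandering domains of the function `f₀` of Letherman, Schleicher and Wood, or whose orbits merge with
the orbit of a given integer, is the one among all integers of the same sign, jointly with the log-uniform law of the sizes of
the Fatou components, uniformly in `P`.
-/

set_option autoImplicit false

namespace Pool.Agent.Results.MP_071ec9_an.SizesAlongRealMultiples

open Finset Filter Topology
open Pool.Agent.Q138.PS
open Pool.Agent.Results.MP_071ec9_an.SizeLaw (f₀ WanderingIntegers Small)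
open Pool.Agent.Results.MP_071ec9_an.NaturalDensity (HasDensity IsCycleRep)

/-- the integers whose orbits merge with the orbit of `a` -/
def Merging (a : ℤ) : Set ℤ := {n | ∃ i j : ℕ, f₀^[i] (n : ℂ) = f₀^[j] (a : ℂ)}

open Classical in
/-- the number of the `1 ≤ n ≤ N` for which `s ⌊α P(n)⌋` is in `S` -/
noncomputable def count (s : ℤ) (S : Set ℤ) (α : ℝ) (P : Polynomial ℤ) (N : ℕ) : ℕ :=
  ((Icc 1 N).filter fun n : ℕ => s * (⌊α * ((P.eval (n : ℤ) : ℤ) : ℝ)⌋₊ : ℤ) ∈ S).card

theorem count_eq (s : ℤ) (S : Set ℤ) (α : ℝ) (P : Polynomial ℤ) (N : ℕ) :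
    (count s S α P N : ℝ) = cnP (fun n => s * (n : ℤ) ∈ S) α P N := by
  classical
  unfold count cnP cn
  refine congrArg _ (congrArg _ ?_)
  ext n
  simp only [mem_filter]

/-- the proportion of the `n ≤ N` with `s ⌊α P(n)⌋` in `S` tends to `c`, uniformly in `P ∈ ℤ[X]` of degree `q` with positive
leading coefficient and coefficients of size at most `N ^ η` -/
def DensityAlong (q : ℕ) (α : ℝ) (s : ℤ) (S : Set ℤ) (c : ℝ) : Prop :=
  ∀ ε : ℝ, 0 < ε → ∃ η : ℝ, 0 < η ∧ ∀ᶠ N : ℕ in atTop, ∀ P : Polynomial ℤ, P.natDegree = q →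
      0 < P.leadingCoeff → (∀ j, |((P.coeff j : ℤ) : ℝ)| ≤ (N : ℝ) ^ η) → |(count s S α P N : ℝ) - c * N| ≤ ε * N

theorem densityAlong_of {q : ℕ} {α : ℝ} {s : ℤ} {S : Set ℤ} {c : ℝ} (h : Along q α (fun n => s * (n : ℤ) ∈ S) c) :
    DensityAlong q α s S c := by
  intro ε hε
  obtain ⟨η, hη, h1⟩ := h ε hε
  refine ⟨η, hη, ?_⟩
  filter_upwards [h1] with N h2 P hdeg hlead hco
  rw [count_eq]
  exact h2 P hdeg hlead hco

theorem side_of {s : ℤ} {S : Set ℤ} {d : ℝ} (h : HasDensity s S d) : SideDensity S s d := by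
  refine Tendsto.congr (fun N => ?_) h
  congr 3
  ext x
  constructor
  · rintro ⟨h1, h2, h3⟩
    exact ⟨h3, by omega, h2⟩
  · rintro ⟨h1, h2, h3⟩
    exact ⟨by omega, h3, h1⟩

/-- the sizes in an invariant set with a density -/
theorem small_of {s : ℤ} (hs : s = 1 ∨ s = -1) {S : Set ℤ}
    (hS : Pool.Agent.Results.MP_071ec9_an.SizeLaw.Invariant s S) {d : ℝ} (h : HasDensity s S d)
    {x : ℝ} (hx0 : 0 ≤ x) (hx1 : x ≤ 1) : HasDensity s (S ∩ Small x) (d * (1 - x)) := by
  have h1 : Tendsto (fun N : ℕ => (Pool.Agent.Results.MP_071ec9_an.SizeLaw.count s (S ∩ Small x) N -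
      (1 - x) * Pool.Agent.Results.MP_071ec9_an.SizeLaw.count s S N) / N) atTop (𝓝 0) := by
    rw [Metric.tendsto_atTop]
    intro ε hε
    obtain ⟨N₀, hN₀⟩ := Pool.Agent.Results.MP_071ec9_an.SizeLaw.result.2.1 (ε / 2) (by positivity)
    refine ⟨max N₀ 1, fun N hN => ?_⟩
    have h2 := hN₀ N ((le_max_left _ _).trans hN) s hs S hS x hx0 hx1
    have hN1 : (0 : ℝ) < N := by
      have : 1 ≤ N := (le_max_right _ _).trans hN
      exact_mod_cast this
    rw [Real.dist_eq, sub_zero, abs_div, abs_of_pos hN1, div_lt_iff₀ hN1]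
    refine h2.trans_lt ?_
    nlinarith
  have h2 : Tendsto (fun N : ℕ => Pool.Agent.Results.MP_071ec9_an.SizeLaw.count s S N / N) atTop (𝓝 d) := h
  have h3 := h1.add (h2.const_mul (1 - x))
  rw [zero_add, mul_comm] at h3
  refine Tendsto.congr (fun N => ?_) h3
  show _ = Pool.Agent.Results.MP_071ec9_an.SizeLaw.count s (S ∩ Small x) N / N
  ring

theorem inv_wandering (s : ℤ) : Pool.Agent.Results.MP_071ec9_an.SizeLaw.Invariant s WanderingIntegers := by
  intro n m _ hnm
  have h1 : f₀ (n : ℂ) = (Pool.Agent.H723R2.LSW.T n : ℂ) := Pool.Agent.H723R2.LSW.f₀_int n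
  have h2 : Pool.Agent.H723R2.LSW.T n = m := by
    rw [h1] at hnm
    exact_mod_cast hnm
  have hW : ∀ n : ℤ, n ∈ WanderingIntegers ↔ Pool.Agent.H723R2.LSW.Wild n :=
    fun n => Pool.Agent.H723R2.LSW.wandering_iff n
  rw [hW, hW, ← h2]
  exact ⟨fun h => Pool.Agent.Q74.SZ.wild_T h, Pool.Agent.H723R2.LSW.wild_mer
      (Pool.Agent.H723R2.LSW.Mer.symm ⟨1, 0, rfl⟩)⟩

theorem inv_merging (s a : ℤ) : Pool.Agent.Results.MP_071ec9_an.SizeLaw.Invariant s (Merging a) := by
  intro n m _ hnm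
  constructor
  · rintro ⟨i, j, h⟩
    refine ⟨i, j + 1, ?_⟩
    rw [← hnm, ← Function.iterate_succ_apply, Function.iterate_succ_apply', h, Function.iterate_succ_apply']
  · rintro ⟨i, j, h⟩
    refine ⟨i + 1, j, ?_⟩
    rw [Function.iterate_succ_apply, hnm, h]

/-- the clipping to `[0, 1]` -/
noncomputable def clip (t : ℝ) : ℝ := max 0 (min 1 t)

theorem clip_mono {t t' : ℝ} (h : t ≤ t') : clip t ≤ clip t' := max_le_max le_rfl (min_le_min le_rfl h)

theorem clip_nonneg (t : ℝ) : 0 ≤ clip t := le_max_left _ _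

theorem clip_le (t : ℝ) : clip t ≤ 1 := max_le zero_le_one (min_le_left _ _)

theorem clip_eq {t : ℝ} (h0 : 0 ≤ t) (h1 : t ≤ 1) : clip t = t := by
  unfold clip
  rw [min_eq_right h1, max_eq_right h0]

theorem clip_cont : Continuous clip := by
  unfold clip
  fun_prop

/-- the sign -/
def sg (b : Bool) : ℤ := if b then 1 else -1

theorem sg_or (b : Bool) : sg b = 1 ∨ sg b = -1 := by
  cases b
  · exact Or.inr rfl
  · exact Or.inl rfl

/-- the indices -/
abbrev Idx : Type := {k : Bool × Option ℤ // ∀ a, k.2 = some a → 0 < sg k.1 * a}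

/-- the sets -/
def ISet (o : Option ℤ) : Set ℤ := o.elim WanderingIntegers Merging

/-- **Theorem.** For `s = ± 1` let `w s` be the natural density of the integers in wandering domains among the integers of sign
`s` and `β s a > 0` that of the integers whose orbits merge with the orbit of `a` (if `s a > 0`), so that `w s = 0` if and only
if no integer of sign `s` is in a wandering domain, and the sum of the `β s a` over the cycles is `1 - w s`. For each
`q ≥ 2` there is a set `E` of Hausdorff dimension at most `q / (q + 1 / (q 2 ^ (q - 1)))` such that for each `α > 0` outside `E`,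
the proportion of the `n ≤ N` for which `s ⌊α P(n)⌋` is in a wandering domain, or is in the class of `a`, and has the size at
most `8/π² · 3 ^ (-x)`, tends to `w s (1 - x)`, or to `β s a (1 - x)`, for all `0 ≤ x ≤ 1`, uniformly in `P ∈ ℤ[X]` of degree
`q` with positive leading coefficient and coefficients of size at most `N ^ η`. The same holds without the condition on the
size, for the densities `w s` and `β s a`. -/
theorem result : ∃ (w : ℤ → ℝ) (β : ℤ → ℤ → ℝ),
    (∀ s : ℤ, (s = 1 ∨ s = -1) → (w s = 0 ↔ ∀ n : ℤ, 0 < s * n → n ∉ WanderingIntegers) ∧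
      (∀ a : ℤ, 0 < s * a → 0 < β s a) ∧ HasSum (fun a : {a : ℤ // IsCycleRep s a} => β s a) (1 - w s)) ∧
    ∀ q : ℕ, 2 ≤ q → ∃ E : Set ℝ, dimH E ≤ ENNReal.ofReal (q / (q + 1 / ((q : ℝ) * 2 ^ (q - 1)))) ∧
      ∀ α : ℝ, 0 < α → α ∉ E → ∀ s : ℤ, (s = 1 ∨ s = -1) →
        (DensityAlong q α s WanderingIntegers (w s) ∧
          ∀ x : ℝ, 0 ≤ x → x ≤ 1 → DensityAlong q α s (WanderingIntegers ∩ Small x) (w s * (1 - x))) ∧
        ∀ a : ℤ, 0 < s * a → DensityAlong q α s (Merging a) (β s a) ∧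
          ∀ x : ℝ, 0 ≤ x → x ≤ 1 → DensityAlong q α s (Merging a ∩ Small x) (β s a * (1 - x)) := by
  have h := fun b : Bool => Pool.Agent.Results.MP_071ec9_an.NaturalDensity.result (sg b) (sg_or b)
  choose w' β' h1 h2 h3 _ h5 using h
  have hsg : ∀ s : ℤ, (s = 1 ∨ s = -1) → sg (decide (s = 1)) = s := by
    rintro s (rfl | rfl)
    · rfl
    · rfl
  refine ⟨fun s => w' (decide (s = 1)), fun s => β' (decide (s = 1)), fun s hs => ?_, fun q hq => ?_⟩
  · obtain ⟨b, rfl⟩ : ∃ b, s = sg b := ⟨_, (hsg s hs).symm⟩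
    have hb : decide (sg b = 1) = b := by cases b <;> rfl
    simp only [hb]
    exact ⟨h2 b, fun a ha => (h3 b a ha).1, h5 b⟩
  set F : Idx → ℝ := fun k => k.1.2.elim (w' k.1.1) (β' k.1.1) with hF
  have hden : ∀ k : Idx, HasDensity (sg k.1.1) (ISet k.1.2) (F k) := by
    rintro ⟨⟨b, o⟩, hk⟩
    cases o with
    | none => exact h1 b
    | some a => exact (h3 b a (hk a rfl)).2
  have hinv : ∀ k : Idx, Pool.Agent.Results.MP_071ec9_an.SizeLaw.Invariant (sg k.1.1) (ISet k.1.2) := by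
    rintro ⟨⟨b, o⟩, hk⟩
    cases o with
    | none => exact inv_wandering _
    | some a => exact inv_merging _ a
  obtain ⟨E1, hE1, g1⟩ := along_nat q hq (fun k : Idx => fun n : ℕ => sg k.1.1 * (n : ℤ) ∈ ISet k.1.2) F
    (fun k => side_nat (sg_or _) (side_of (hden k)))
  obtain ⟨E2, hE2, g2⟩ := along_real (ι := Idx) q hq
    (fun k t => fun n : ℕ => sg k.1.1 * (n : ℤ) ∈ ISet k.1.2 ∩ Small (1 - clip t)) (fun k t => F k * clip t)
    (fun k t t' n ht hn => by
      refine ⟨hn.1, ?_⟩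
      have h7 : Pool.Agent.Results.MP_071ec9_an.SizeLaw.size (sg k.1.1 * (n : ℤ)) ≤ 8 / Real.pi ^ 2 * 3 ^ (-(1 - clip t)) := hn.2
      show Pool.Agent.Results.MP_071ec9_an.SizeLaw.size (sg k.1.1 * (n : ℤ)) ≤ 8 / Real.pi ^ 2 * 3 ^ (-(1 - clip t'))
      refine h7.trans ?_
      have h8 : (3 : ℝ) ^ (-(1 - clip t)) ≤ 3 ^ (-(1 - clip t')) :=
        Real.rpow_le_rpow_of_exponent_le (by norm_num) (by linarith [clip_mono ht])
      gcongr)
    (fun k => clip_cont.const_mul _)
    (fun k t => by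
      have h6 := small_of (sg_or _) (hinv k) (hden k) (x := 1 - clip t) (by linarith [clip_le t]) (by linarith [clip_nonneg t])
      rw [sub_sub_cancel] at h6
      exact side_nat (sg_or _) (side_of h6))
  refine ⟨E1 ∪ E2, ?_, fun α hα hαE s hs => ?_⟩
  · rw [dimH_union]
    exact max_le hE1 hE2
  obtain ⟨b, rfl⟩ : ∃ b, s = sg b := ⟨_, (hsg s hs).symm⟩
  have hb : decide (sg b = 1) = b := by cases b <;> rfl
  simp only [hb]
  have k1 := g1 α hα fun h => hαE (Or.inl h)
  have k2 := g2 α hα fun h => hαE (Or.inr h)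
  have k2' : ∀ (k : Idx) (x : ℝ), 0 ≤ x → x ≤ 1 →
      Along q α (fun n : ℕ => sg k.1.1 * (n : ℤ) ∈ ISet k.1.2 ∩ Small x) (F k * (1 - x)) := by
    intro k x hx0 hx1
    have h6 := k2 k (1 - x)
    rw [clip_eq (by linarith) (by linarith), sub_sub_cancel] at h6
    exact h6
  refine ⟨⟨?_, fun x hx0 hx1 => ?_⟩, fun a ha => ⟨?_, fun x hx0 hx1 => ?_⟩⟩
  · exact densityAlong_of (k1 ⟨(b, none), by simp⟩)
  · exact densityAlong_of (k2' ⟨(b, none), by simp⟩ x hx0 hx1)
  · exact densityAlong_of (k1 ⟨(b, some a), by rintro _ ⟨⟩; exact ha⟩)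
  · exact densityAlong_of (k2' ⟨(b, some a), by rintro _ ⟨⟩; exact ha⟩ x hx0 hx1)

end Pool.Agent.Results.MP_071ec9_an.SizesAlongRealMultiples
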